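import Pool.Agent.W313.HB.Stm

/-! Project HB, part PROD: the product measure. -/

set_option autoImplicit false

namespace Pool.Agent.W451.HB

open Finset
open Pool.Agent.W313.HB

/-- weight of a set -/
noncomputable def wt (S : Finset ℕ) : ℝ := ∏ p ∈ S, 1 / (p : ℝ)

/-- total mass -/
noncomputable def Z (T : Finset ℕ) : ℝ := ∏ p ∈ T, (1 + 1 / (p : ℝ))

/-- unnormalised expectation -/
noncomputable def Ex (T : Finset ℕ) (f : Finset ℕ → ℝ) : ℝ := ∑ S ∈ T.powerset, wt S * f S

/-- expectation -/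
noncomputable def e (T : Finset ℕ) (f : Finset ℕ → ℝ) : ℝ := Ex T f / Z T

lemma wt_nonneg (S : Finset ℕ) : 0 ≤ wt S := Finset.prod_nonneg (fun p _ => by positivity)

lemma Z_pos (T : Finset ℕ) : 0 < Z T := Finset.prod_pos (fun p _ => by positivity)

lemma Ex_one (T : Finset ℕ) : Ex T (fun _ => 1) = Z T := by
  unfold Ex Z wt
  rw [Finset.prod_one_add]
  simp

lemma e_one (T : Finset ℕ) : e T (fun _ => 1) = 1 := by
  unfold e
  rw [Ex_one]
  exact div_self (Z_pos T).ne'

lemma e_mono (T : Finset ℕ) {f g : Finset ℕ → ℝ} (h : ∀ S, S ⊆ T → f S ≤ g S) : e T f ≤ e T g := by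
  unfold e Ex
  refine div_le_div_of_nonneg_right ?_ (Z_pos T).le
  refine Finset.sum_le_sum (fun S hS => ?_)
  exact mul_le_mul_of_nonneg_left (h S (Finset.mem_powerset.mp hS)) (wt_nonneg S)

lemma e_congr (T : Finset ℕ) {f g : Finset ℕ → ℝ} (h : ∀ S, S ⊆ T → f S = g S) : e T f = e T g :=
  le_antisymm (e_mono T fun S hS => (h S hS).le) (e_mono T fun S hS => (h S hS).ge)

lemma e_add (T : Finset ℕ) (f g : Finset ℕ → ℝ) : e T (fun S => f S + g S) = e T f + e T g := by
  unfold e Ex
  rw [← add_div, ← Finset.sum_add_distrib]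
  congr 1
  refine Finset.sum_congr rfl (fun S _ => by ring)

lemma e_sub (T : Finset ℕ) (f g : Finset ℕ → ℝ) : e T (fun S => f S - g S) = e T f - e T g := by
  unfold e Ex
  rw [← sub_div, ← Finset.sum_sub_distrib]
  congr 1
  refine Finset.sum_congr rfl (fun S _ => by ring)

lemma e_smul (T : Finset ℕ) (c : ℝ) (f : Finset ℕ → ℝ) :
    e T (fun S => c * f S) = c * e T f := by
  unfold e Ex
  rw [← mul_div_assoc, Finset.mul_sum]
  congr 1
  refine Finset.sum_congr rfl (fun S _ => by ring)

lemma e_nonneg (T : Finset ℕ) {f : Finset ℕ → ℝ} (h : ∀ S, S ⊆ T → 0 ≤ f S) : 0 ≤ e T f := by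
  have := e_mono T (f := fun _ => 0) (g := f) h
  have h0 : e T (fun _ => 0) = 0 := by simp [e, Ex]
  rwa [h0] at this

lemma wt_union {A B : Finset ℕ} (h : Disjoint A B) : wt (A ∪ B) = wt A * wt B :=
  Finset.prod_union h

lemma Z_union {A B : Finset ℕ} (h : Disjoint A B) : Z (A ∪ B) = Z A * Z B :=
  Finset.prod_union h

/-- independence -/
lemma Ex_indep {A B : Finset ℕ} (h : Disjoint A B) (f g : Finset ℕ → ℝ) :
    Ex (A ∪ B) (fun S => f (S ∩ A) * g (S ∩ B)) = Ex A f * Ex B g := by
  unfold Ex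
  rw [Finset.sum_mul_sum, ← Finset.sum_product']
  refine Finset.sum_nbij' (fun S => (S ∩ A, S ∩ B)) (fun x => x.1 ∪ x.2) ?_ ?_ ?_ ?_ ?_
  · intro S hS
    simp only [Finset.mem_product, Finset.mem_powerset]
    exact ⟨Finset.inter_subset_right, Finset.inter_subset_right⟩
  · intro x hx
    simp only [Finset.mem_product, Finset.mem_powerset] at hx ⊢
    exact Finset.union_subset_union hx.1 hx.2
  · intro S hS
    simp only [Finset.mem_powerset] at hS
    show S ∩ A ∪ S ∩ B = S
    rw [← Finset.inter_union_distrib_left]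
    exact Finset.inter_eq_left.mpr hS
  · intro x hx
    simp only [Finset.mem_product, Finset.mem_powerset] at hx
    have h1 : x.2 ∩ A = ∅ := by
      rw [← Finset.disjoint_iff_inter_eq_empty]
      exact (h.symm.mono_left hx.2)
    have h2 : x.1 ∩ B = ∅ := by
      rw [← Finset.disjoint_iff_inter_eq_empty]
      exact (h.mono_left hx.1)
    ext : 1
    · show (x.1 ∪ x.2) ∩ A = x.1
      rw [Finset.union_inter_distrib_right, h1, Finset.union_empty]
      exact Finset.inter_eq_left.mpr hx.1
    · show (x.1 ∪ x.2) ∩ B = x.2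
      rw [Finset.union_inter_distrib_right, h2, Finset.empty_union]
      exact Finset.inter_eq_left.mpr hx.2
  · intro S hS
    simp only [Finset.mem_powerset] at hS
    have h3 : wt S = wt (S ∩ A) * wt (S ∩ B) := by
      rw [← wt_union]
      · rw [← Finset.inter_union_distrib_left, Finset.inter_eq_left.mpr hS]
      · exact h.mono Finset.inter_subset_right Finset.inter_subset_right
    rw [h3]
    ring

lemma e_indep {A B : Finset ℕ} (h : Disjoint A B) (f g : Finset ℕ → ℝ) :
    e (A ∪ B) (fun S => f (S ∩ A) * g (S ∩ B)) = e A f * e B g := by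
  unfold e
  rw [Ex_indep h, Z_union h, div_mul_div_comm]

lemma e_left {A B : Finset ℕ} (h : Disjoint A B) (f : Finset ℕ → ℝ) :
    e (A ∪ B) (fun S => f (S ∩ A)) = e A f := by
  have := e_indep h f (fun _ => 1)
  rw [e_one] at this
  simpa using this

/-- additive functions -/
noncomputable def LL (h : ℕ → ℝ) (S : Finset ℕ) : ℝ := ∑ p ∈ S, h p

lemma LL_nonneg {h : ℕ → ℝ} (hh : ∀ p, 0 ≤ h p) (S : Finset ℕ) : 0 ≤ LL h S :=
  Finset.sum_nonneg (fun p _ => hh p)

lemma e_LL (h : ℕ → ℝ) (hh : ∀ p, 0 ≤ h p) (T : Finset ℕ) :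
    e T (LL h) ≤ ∑ p ∈ T, h p / p := by
  classical
  induction T using Finset.induction_on with
  | empty => simp [e, Ex, LL]
  | insert q T hq ih =>
    rw [Finset.sum_insert hq]
    have h1 : Ex (insert q T) (LL h) = (1 + 1 / (q : ℝ)) * Ex T (LL h) + h q / q * Z T := by
      unfold Ex
      rw [Finset.sum_powerset_insert hq]
      have h2 : ∀ S ∈ T.powerset, wt (insert q S) * LL h (insert q S) =
          1 / (q : ℝ) * (wt S * LL h S) + h q / q * (wt S * 1) := by
        intro S hS
        have hqS : q ∉ S := fun hh => hq (Finset.mem_powerset.mp hS hh)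
        unfold wt LL
        rw [Finset.prod_insert hqS, Finset.sum_insert hqS]
        ring
      rw [Finset.sum_congr rfl h2, Finset.sum_add_distrib, ← Finset.mul_sum, ← Finset.mul_sum]
      have h3 : ∑ S ∈ T.powerset, wt S * 1 = Z T := Ex_one T
      rw [h3]
      ring
    have h4 : Z (insert q T) = (1 + 1 / (q : ℝ)) * Z T := by
      unfold Z
      rw [Finset.prod_insert hq]
    have hq0 : (0 : ℝ) < 1 + 1 / (q : ℝ) := by positivity
    have hZ := Z_pos T
    have h5 : e (insert q T) (LL h) = e T (LL h) + h q / q / (1 + 1 / (q : ℝ)) := by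
      unfold e
      rw [h1, h4]
      field_simp
    rw [h5, add_comm (h q / q)]
    refine add_le_add ih ?_
    refine div_le_self (div_nonneg (hh q) (Nat.cast_nonneg q)) ?_
    have : (0 : ℝ) ≤ 1 / (q : ℝ) := by positivity
    linarith

open Classical in
lemma e_empty (T : Finset ℕ) : e T (fun S => if S = ∅ then 1 else 0) = 1 / Z T := by
  unfold e Ex
  congr 1
  rw [Finset.sum_eq_single ∅]
  · simp [wt]
  · intro S _ hS
    simp [hS]
  · intro h
    exact absurd (Finset.empty_mem_powerset T) h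

/-- the primes up to `n` -/
def PP (n : ℕ) : Finset ℕ := (Icc 1 n).filter Nat.Prime

lemma mem_PP {n p : ℕ} : p ∈ PP n ↔ p.Prime ∧ p ≤ n := by
  unfold PP
  rw [Finset.mem_filter, Finset.mem_Icc]
  constructor
  · rintro ⟨⟨h1, h2⟩, h3⟩
    exact ⟨h3, h2⟩
  · rintro ⟨h1, h2⟩
    exact ⟨⟨h1.one_lt.le, h2⟩, h1⟩

lemma PP_mono {m n : ℕ} (h : m ≤ n) : PP m ⊆ PP n := by
  intro p hp
  rw [mem_PP] at hp ⊢
  exact ⟨hp.1, hp.2.trans h⟩

/-- truncated logarithm -/
noncomputable def lg (y p : ℕ) : ℝ := if p ≤ y then Real.log p else 0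

lemma lg_nonneg (y p : ℕ) : 0 ≤ lg y p := by
  unfold lg
  split_ifs
  · exact Real.log_natCast_nonneg p
  · exact le_rfl

open Classical in
/-- the measure `ms` in terms of `e` -/
lemma ms_eq (y : ℕ) (Bad : ℕ → Prop) :
    ms y Bad = e (PP y) (fun S => if Bad (∏ p ∈ S, p) then 1 else 0) := by
  unfold ms e
  congr 1
  unfold Ex
  have hPP : ∀ p ∈ PP y, p.Prime := fun p hp => (mem_PP.mp hp).1
  have hT : (primorial y).primeFactors = PP y := by
    rw [primeFactors_primorial]
    ext p
    rw [mem_PP, Nat.mem_primesLE]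
    tauto
  simp only [mul_ite, mul_one, mul_zero]
  rw [← Finset.sum_filter]
  refine Finset.sum_nbij' (fun s => s.primeFactors) (fun S => ∏ p ∈ S, p) ?_ ?_ ?_ ?_ ?_
  · intro s hs
    rw [Finset.mem_filter, Nat.mem_divisors] at hs
    rw [Finset.mem_filter, Finset.mem_powerset]
    have hsq : Squarefree s := (squarefree_primorial y).squarefree_of_dvd hs.1.1
    refine ⟨?_, ?_⟩
    · rw [← hT]
      exact Nat.primeFactors_mono hs.1.1 hs.1.2
    · rw [Nat.prod_primeFactors_of_squarefree hsq]
      exact hs.2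
  · intro S hS
    rw [Finset.mem_filter, Finset.mem_powerset] at hS
    rw [Finset.mem_filter, Nat.mem_divisors]
    refine ⟨⟨?_, (primorial_pos y).ne'⟩, hS.2⟩
    have h1 : ∏ p ∈ PP y, p = primorial y := by
      rw [← hT]
      exact Nat.prod_primeFactors_of_squarefree (squarefree_primorial y)
    rw [← h1]
    exact Finset.prod_dvd_prod_of_subset _ _ _ hS.1
  · intro s hs
    rw [Finset.mem_filter, Nat.mem_divisors] at hs
    exact Nat.prod_primeFactors_of_squarefree
      ((squarefree_primorial y).squarefree_of_dvd hs.1.1)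
  · intro S hS
    rw [Finset.mem_filter, Finset.mem_powerset] at hS
    exact Nat.primeFactors_prod (fun p hp => hPP p (hS.1 hp))
  · intro s hs
    rw [Finset.mem_filter, Nat.mem_divisors] at hs
    unfold wt
    have hsq : Squarefree s := (squarefree_primorial y).squarefree_of_dvd hs.1.1
    rw [Finset.prod_div_distrib, Finset.prod_const_one]
    congr 1
    have := Nat.prod_primeFactors_of_squarefree hsq
    calc (s : ℝ) = ((∏ p ∈ s.primeFactors, p : ℕ) : ℝ) := by rw [this]
      _ = _ := by push_cast; rfl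


/-- the bound for the mean of the logarithm -/
lemma e_lg {C : ℝ} (hC : ∀ x : ℕ, 1 ≤ x →
    ∑ p ∈ (Icc 1 x).filter Nat.Prime, Real.log p / p ≤ Real.log x + C)
    (T : Finset ℕ) (n : ℕ) (hT : ∀ p ∈ T, p.Prime) (h : ℕ → ℝ) (hh : ∀ p, 0 ≤ h p)
    (hle : ∀ p ∈ T, h p ≤ lg n p) (hn : 1 ≤ n) : e T (LL h) ≤ Real.log n + C := by
  refine (e_LL h hh T).trans (le_trans ?_ (hC n hn))
  have h1 : ∑ p ∈ T, h p / p ≤ ∑ p ∈ T.filter (fun p => p ≤ n), Real.log p / p := by
    rw [Finset.sum_filter]
    refine Finset.sum_le_sum (fun p hp => ?_)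
    have := hle p hp
    unfold lg at this
    split_ifs with hpn
    · rw [if_pos hpn] at this
      exact div_le_div_of_nonneg_right this (Nat.cast_nonneg p)
    · rw [if_neg hpn] at this
      exact div_nonpos_of_nonpos_of_nonneg this (Nat.cast_nonneg p)
  refine h1.trans (Finset.sum_le_sum_of_subset_of_nonneg ?_ ?_)
  · intro p hp
    rw [Finset.mem_filter] at hp
    exact mem_PP.mpr ⟨hT p hp.1, hp.2⟩
  · intro p _ _
    exact div_nonneg (Real.log_natCast_nonneg p) (Nat.cast_nonneg p)

open Classical in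
/-- one block -/
lemma block {C c g : ℝ} (hC : ∀ x : ℕ, 1 ≤ x →
    ∑ p ∈ (Icc 1 x).filter Nat.Prime, Real.log p / p ≤ Real.log x + C) (hC0 : 0 ≤ C)
    (hc : 1 ≤ c) (hg : 8 * C + 1 ≤ g) (B : Finset ℕ) (hB : ∀ p ∈ B, p.Prime) :
    e B (fun S => if g / 2 < LL (lg ⌊Real.exp (c * g)⌋₊) S then 1 else 0) ≤
      1 - Real.exp (-(8 * (c + C))) / 2 := by
  set y := ⌊Real.exp (c * g)⌋₊ with hy
  set n := ⌊Real.exp (g / 8)⌋₊ with hn
  have hg0 : 0 < g := by linarith
  have hn1 : 1 ≤ n := by
    rw [hn]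
    exact Nat.le_floor (by simpa using Real.one_le_exp (by positivity : (0 : ℝ) ≤ g / 8))
  have hy1 : 1 ≤ y := by
    rw [hy]
    exact Nat.le_floor (by simpa using Real.one_le_exp (by positivity : (0 : ℝ) ≤ c * g))
  have hlogn : Real.log n ≤ g / 8 := by
    have h1 : (n : ℝ) ≤ Real.exp (g / 8) := Nat.floor_le (Real.exp_pos _).le
    have h2 : (0 : ℝ) < n := by exact_mod_cast hn1
    calc Real.log n ≤ Real.log (Real.exp (g / 8)) := Real.log_le_log h2 h1
      _ = g / 8 := Real.log_exp _
  have hlogy : Real.log y ≤ c * g := by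
    have h1 : (y : ℝ) ≤ Real.exp (c * g) := Nat.floor_le (Real.exp_pos _).le
    have h2 : (0 : ℝ) < y := by exact_mod_cast hy1
    calc Real.log y ≤ Real.log (Real.exp (c * g)) := Real.log_le_log h2 h1
      _ = c * g := Real.log_exp _
  set B2 := B.filter (fun p => n < p ∧ p ≤ y) with hB2
  set B3 := B \ B2 with hB3
  have hdisj : Disjoint B2 B3 := Finset.disjoint_sdiff
  have hun : B2 ∪ B3 = B := Finset.union_sdiff_of_subset (Finset.filter_subset _ _)
  have hp1 : ∀ S ⊆ B, (if g / 2 < LL (lg y) S then (1 : ℝ) else 0) ≤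
      1 - (if S ∩ B2 = ∅ then 1 else 0) * (1 - 2 / g * LL (lg y) (S ∩ B3)) := by
    intro S hS
    by_cases h2 : S ∩ B2 = ∅
    · rw [if_pos h2]
      have h3 : S ∩ B3 = S := by
        rw [Finset.inter_eq_left]
        intro p hp
        rw [hB3, Finset.mem_sdiff]
        refine ⟨hS hp, fun h4 => ?_⟩
        have : p ∈ S ∩ B2 := Finset.mem_inter.mpr ⟨hp, h4⟩
        rw [h2] at this
        exact Finset.notMem_empty _ this
      rw [h3]
      by_cases h5 : g / 2 < LL (lg y) S
      · rw [if_pos h5]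
        have : 1 ≤ 2 / g * LL (lg y) S := by
          rw [div_mul_eq_mul_div, le_div_iff₀ hg0]
          linarith
        linarith
      · rw [if_neg h5]
        have : 0 ≤ 2 / g * LL (lg y) S := mul_nonneg (by positivity) (LL_nonneg (lg_nonneg y) S)
        linarith
    · rw [if_neg h2]
      split_ifs <;> linarith
  have hp2 : e B (fun S => if g / 2 < LL (lg y) S then 1 else 0) ≤
      1 - (1 / Z B2) * (1 - 2 / g * e B3 (LL (lg y))) := by
    refine (e_mono B hp1).trans (le_of_eq ?_)
    rw [e_sub, e_one]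
    congr 1
    have h6 : e B3 (fun S => 1 - 2 / g * LL (lg y) S) = 1 - 2 / g * e B3 (LL (lg y)) := by
      rw [e_sub, e_one, e_smul]
    rw [← h6, ← e_empty B2]
    have h7 := e_indep hdisj (fun S => if S = ∅ then 1 else 0) (fun S => 1 - 2 / g * LL (lg y) S)
    rw [hun] at h7
    exact h7
  refine hp2.trans ?_
  -- first factor
  have hZ : Z B2 ≤ Real.exp (8 * (c + C)) := by
    have h1 : Z B2 ≤ Real.exp (∑ p ∈ B2, 1 / (p : ℝ)) := by
      unfold Z
      rw [Real.exp_sum]
      refine Finset.prod_le_prod (fun p _ => by positivity) (fun p _ => ?_)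
      have := Real.add_one_le_exp (1 / (p : ℝ))
      linarith
    refine h1.trans (Real.exp_le_exp.mpr ?_)
    have h2 : ∑ p ∈ B2, 1 / (p : ℝ) ≤ 8 / g * ∑ p ∈ (Icc 1 y).filter Nat.Prime, Real.log p / p := by
      rw [Finset.mul_sum]
      have hsub : B2 ⊆ (Icc 1 y).filter Nat.Prime := by
        intro p hp
        rw [hB2, Finset.mem_filter] at hp
        exact mem_PP.mpr ⟨hB p hp.1, hp.2.2⟩
      refine le_trans ?_ (Finset.sum_le_sum_of_subset_of_nonneg hsub (fun p _ _ =>
        mul_nonneg (by positivity) (div_nonneg (Real.log_natCast_nonneg p) (Nat.cast_nonneg p))))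
      refine Finset.sum_le_sum (fun p hp => ?_)
      rw [hB2, Finset.mem_filter] at hp
      have hp0 : (0 : ℝ) < p := by exact_mod_cast (hB p hp.1).pos
      have h3 : g / 8 < Real.log p := by
        have h4 : Real.exp (g / 8) < p := by
          have := hp.2.1
          rw [hn] at this
          exact (Nat.floor_lt (Real.exp_pos _).le).mp this
        calc g / 8 = Real.log (Real.exp (g / 8)) := (Real.log_exp _).symm
          _ < Real.log p := Real.log_lt_log (Real.exp_pos _) h4
      rw [← mul_div_assoc]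
      refine div_le_div_of_nonneg_right ?_ hp0.le
      rw [div_mul_eq_mul_div, le_div_iff₀ hg0]
      linarith
    have h5 := hC y hy1
    have h6 : (8 : ℝ) / g * ∑ p ∈ (Icc 1 y).filter Nat.Prime, Real.log p / p ≤
        8 / g * (c * g + C) := by
      refine mul_le_mul_of_nonneg_left ?_ (by positivity)
      linarith
    have h7 : 8 / g * (c * g + C) ≤ 8 * (c + C) := by
      rw [div_mul_eq_mul_div, div_le_iff₀ hg0]
      nlinarith
    linarith
  -- second factor
  have hE : e B3 (LL (lg y)) ≤ g / 8 + C := by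
    have h1 := e_lg hC B3 n (fun p hp => hB p (by
      rw [hB3, Finset.mem_sdiff] at hp
      exact hp.1)) (lg y) (lg_nonneg y) (fun p hp => by
        rw [hB3, Finset.mem_sdiff, hB2, Finset.mem_filter] at hp
        unfold lg
        by_cases hpy : p ≤ y
        · have : p ≤ n := by
            by_contra hcon
            exact hp.2 ⟨hp.1, by omega, hpy⟩
          rw [if_pos hpy, if_pos this]
        · rw [if_neg hpy]
          split_ifs
          · exact Real.log_natCast_nonneg p
          · exact le_rfl) hn1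
    linarith
  have h8 : (1 : ℝ) / 2 ≤ 1 - 2 / g * e B3 (LL (lg y)) := by
    have h9 : 2 / g * e B3 (LL (lg y)) ≤ 2 / g * (g / 8 + C) :=
      mul_le_mul_of_nonneg_left hE (by positivity)
    have h10 : 2 / g * (g / 8 + C) ≤ 1 / 2 := by
      rw [div_mul_eq_mul_div, div_le_iff₀ hg0]
      linarith
    linarith
  have h11 : Real.exp (-(8 * (c + C))) ≤ 1 / Z B2 := by
    rw [Real.exp_neg, ← one_div]
    exact one_div_le_one_div_of_le (Z_pos B2) hZ
  have h12 : Real.exp (-(8 * (c + C))) / 2 ≤ (1 / Z B2) * (1 - 2 / g * e B3 (LL (lg y))) := by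
    rw [div_eq_mul_one_div]
    exact mul_le_mul h11 h8 (by norm_num) (by have := Z_pos B2; positivity)
  linarith


lemma LL_split {a N : ℕ} (h : a ≤ N) (f : ℕ → ℝ) {S : Finset ℕ} (hS : S ⊆ PP N) :
    LL f S = LL f (S ∩ PP a) + LL f (S ∩ (PP N \ PP a)) := by
  unfold LL
  rw [← Finset.sum_union]
  · rw [← Finset.inter_union_distrib_left, Finset.union_sdiff_of_subset (PP_mono h),
      Finset.inter_eq_left.mpr hS]
  · exact (Finset.disjoint_sdiff).mono Finset.inter_subset_right Finset.inter_subset_right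

open Classical in
theorem claim {C c : ℝ} (hC : ∀ x : ℕ, 1 ≤ x →
    ∑ p ∈ (Icc 1 x).filter Nat.Prime, Real.log p / p ≤ Real.log x + C) (hC0 : 0 ≤ C)
    (hc : 1 ≤ c) {R : ℝ} (hR : 8 * C + 1 ≤ R) (g : ℕ → ℝ) (hg0 : R ≤ g 0)
    (hg : ∀ j, R * g j ≤ g (j + 1)) : ∀ (j N : ℕ), (∀ i < j, ⌊Real.exp (c * g i)⌋₊ ≤ N) →
    e (PP N) (fun S => if ∀ i < j, g i < LL (lg ⌊Real.exp (c * g i)⌋₊) S then 1 else 0) ≤
      (1 - Real.exp (-(8 * (c + C))) / 2) ^ j + j * (2 * (c + C) / R) := by
  have hR1 : 1 ≤ R := by linarith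
  have hgR : ∀ j, R ≤ g j := by
    intro j
    induction j with
    | zero => exact hg0
    | succ j ih =>
      refine le_trans ?_ (hg j)
      nlinarith
  have hgmono : Monotone g := monotone_nat_of_le_succ (fun j => by
    refine le_trans ?_ (hg j)
    have := hgR j
    nlinarith)
  have hκ0 : 0 < Real.exp (-(8 * (c + C))) / 2 := by positivity
  have hκ1 : Real.exp (-(8 * (c + C))) / 2 ≤ 1 := by
    have : Real.exp (-(8 * (c + C))) ≤ 1 := Real.exp_le_one_iff.mpr (by linarith)
    linarith
  set κ := Real.exp (-(8 * (c + C))) / 2 with hκ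
  set δ := 2 * (c + C) / R with hδ
  have hδ0 : 0 ≤ δ := by positivity
  intro j
  induction j with
  | zero =>
    intro N _
    refine (e_mono (PP N) (g := fun _ => 1) (fun S _ => ?_)).trans ?_
    · split_ifs <;> norm_num
    · rw [e_one]
      simp
  | succ j ih =>
    intro N hN
    set y := ⌊Real.exp (c * g j)⌋₊ with hy
    obtain ⟨a, hay, haN, hai, hae⟩ : ∃ a : ℕ, a ≤ y ∧ a ≤ N ∧
        (∀ i < j, ⌊Real.exp (c * g i)⌋₊ ≤ a) ∧ 2 / g j * e (PP a) (LL (lg y)) ≤ δ := by
      rcases Nat.eq_zero_or_pos j with hj | hj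
      · refine ⟨0, Nat.zero_le _, Nat.zero_le _, fun i hi => by omega, ?_⟩
        have h1 : PP 0 = ∅ := by
          ext p
          rw [mem_PP]
          constructor
          · rintro ⟨h2, h3⟩
            have := h2.pos
            omega
          · intro h
            exact absurd h (Finset.notMem_empty p)
        have h2 : e (PP 0) (LL (lg y)) = 0 := by
          rw [h1]
          simp [e, Ex, LL]
        rw [h2, mul_zero]
        exact hδ0
      · obtain ⟨k, rfl⟩ : ∃ k, j = k + 1 := ⟨j - 1, by omega⟩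
        refine ⟨⌊Real.exp (c * g k)⌋₊, ?_, hN k (by omega), ?_, ?_⟩
        · refine Nat.floor_mono (Real.exp_le_exp.mpr ?_)
          exact mul_le_mul_of_nonneg_left (hgmono (Nat.le_succ k)) (by linarith)
        · intro i hi
          refine Nat.floor_mono (Real.exp_le_exp.mpr ?_)
          exact mul_le_mul_of_nonneg_left (hgmono (by omega)) (by linarith)
        · have hgk : R ≤ g k := hgR k
          have hgk0 : 0 < g k := by linarith
          set n := ⌊Real.exp (c * g k)⌋₊ with hn
          have hn1 : 1 ≤ n := by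
            rw [hn]
            exact Nat.le_floor (by simpa using Real.one_le_exp (by positivity : (0 : ℝ) ≤ c * g k))
          have hlogn : Real.log n ≤ c * g k := by
            have h1 : (n : ℝ) ≤ Real.exp (c * g k) := Nat.floor_le (Real.exp_pos _).le
            have h2 : (0 : ℝ) < n := by exact_mod_cast hn1
            calc Real.log n ≤ Real.log (Real.exp (c * g k)) := Real.log_le_log h2 h1
              _ = c * g k := Real.log_exp _
          have h3 : e (PP n) (LL (lg y)) ≤ Real.log n + C := by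
            refine e_lg hC (PP n) n (fun p hp => (mem_PP.mp hp).1) (lg y) (lg_nonneg y) ?_ hn1
            intro p hp
            unfold lg
            rw [if_pos (mem_PP.mp hp).2]
            split_ifs
            · exact le_rfl
            · exact Real.log_natCast_nonneg p
          have h4 : e (PP n) (LL (lg y)) ≤ (c + C) * g k := by nlinarith
          have hgk1 : R * g k ≤ g (k + 1) := hg k
          have hgk2 : 0 < g (k + 1) := by nlinarith
          have h5 : 2 / g (k + 1) * e (PP n) (LL (lg y)) ≤ 2 / g (k + 1) * ((c + C) * g k) :=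
            mul_le_mul_of_nonneg_left h4 (by positivity)
          refine h5.trans ?_
          rw [hδ, div_mul_eq_mul_div, div_le_div_iff₀ hgk2 (by linarith)]
          have h6 : 0 ≤ c + C := by linarith
          have h7 := mul_le_mul_of_nonneg_left hgk1 h6
          nlinarith
    have hgj : R ≤ g j := hgR j
    have hgj0 : 0 < g j := by linarith
    have hdisj : Disjoint (PP a) (PP N \ PP a) := Finset.disjoint_sdiff
    have hun : PP a ∪ (PP N \ PP a) = PP N := Finset.union_sdiff_of_subset (PP_mono haN)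
    have hpt : ∀ S ⊆ PP N, (if ∀ i < j + 1, g i < LL (lg ⌊Real.exp (c * g i)⌋₊) S then (1 : ℝ)
        else 0) ≤ (if ∀ i < j, g i < LL (lg ⌊Real.exp (c * g i)⌋₊) (S ∩ PP a) then 1 else 0) *
        (if g j / 2 < LL (lg y) (S ∩ (PP N \ PP a)) then 1 else 0) +
        2 / g j * LL (lg y) (S ∩ PP a) := by
      intro S hS
      have hLn : 0 ≤ 2 / g j * LL (lg y) (S ∩ PP a) :=
        mul_nonneg (by positivity) (LL_nonneg (lg_nonneg y) _)
      by_cases hbad : ∀ i < j + 1, g i < LL (lg ⌊Real.exp (c * g i)⌋₊) S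
      · rw [if_pos hbad]
        have h1 : ∀ i < j, g i < LL (lg ⌊Real.exp (c * g i)⌋₊) (S ∩ PP a) := by
          intro i hi
          have h2 := hbad i (by omega)
          rw [LL_split haN _ hS] at h2
          have h3 : LL (lg ⌊Real.exp (c * g i)⌋₊) (S ∩ (PP N \ PP a)) = 0 := by
            unfold LL
            refine Finset.sum_eq_zero (fun p hp => ?_)
            rw [Finset.mem_inter, Finset.mem_sdiff] at hp
            unfold lg
            rw [if_neg]
            intro hpi
            exact hp.2.2 (mem_PP.mpr ⟨(mem_PP.mp hp.2.1).1, hpi.trans (hai i hi)⟩)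
          rw [h3, add_zero] at h2
          exact h2
        rw [if_pos h1, one_mul]
        by_cases h4 : g j / 2 < LL (lg y) (S ∩ (PP N \ PP a))
        · rw [if_pos h4]
          linarith
        · rw [if_neg h4, zero_add]
          have h5 := hbad j (by omega)
          rw [LL_split haN _ hS] at h5
          have h6 : g j / 2 ≤ LL (lg y) (S ∩ PP a) := by
            push Not at h4
            linarith
          rw [div_mul_eq_mul_div, le_div_iff₀ hgj0]
          linarith
      · rw [if_neg hbad]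
        refine add_nonneg (mul_nonneg ?_ ?_) hLn <;> split_ifs <;> norm_num
    refine (e_mono (PP N) hpt).trans ?_
    rw [e_add]
    have hi1 := e_indep hdisj
      (fun S => if ∀ i < j, g i < LL (lg ⌊Real.exp (c * g i)⌋₊) S then 1 else 0)
      (fun S => if g j / 2 < LL (lg y) S then 1 else 0)
    rw [hun] at hi1
    have hi2 : e (PP N) (fun S => 2 / g j * LL (lg y) (S ∩ PP a)) =
        2 / g j * e (PP a) (LL (lg y)) := by
      have h := e_left hdisj (fun S => 2 / g j * LL (lg y) S)
      rw [hun] at h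
      rw [h]
      exact e_smul _ _ _
    have h8 := ih a hai
    have h9 := block hC hC0 hc (by linarith : 8 * C + 1 ≤ g j) (PP N \ PP a) (fun p hp =>
      (mem_PP.mp (Finset.mem_sdiff.mp hp).1).1)
    have h10 : 0 ≤ e (PP N \ PP a) (fun S => if g j / 2 < LL (lg y) S then 1 else 0) :=
      e_nonneg _ (fun S _ => by split_ifs <;> norm_num)
    have h11 : 0 ≤ (1 - κ) ^ j + j * δ := by
      have : 0 ≤ 1 - κ := by linarith
      positivity
    have h12 := mul_le_mul h8 h9 h10 h11
    rw [← hi1] at h12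
    have h13 : ((1 - κ) ^ j + j * δ) * (1 - κ) ≤ (1 - κ) ^ (j + 1) + j * δ := by
      rw [pow_succ]
      have : 0 ≤ (j : ℝ) * δ := by positivity
      nlinarith
    have h14 : (1 - κ) ^ (j + 1) + ((j + 1 : ℕ) : ℝ) * δ = (1 - κ) ^ (j + 1) + j * δ + δ := by
      push_cast
      ring
    rw [h14]
    refine add_le_add (h12.trans h13) ?_
    rw [hi2]
    exact hae

lemma log_sm (y : ℕ) {S : Finset ℕ} (hS : ∀ p ∈ S, p.Prime) (t : ℝ) :
    Real.exp t < (sm y (∏ p ∈ S, p) : ℝ) ↔ t < LL (lg y) S := by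
  have h1 : (sm y (∏ p ∈ S, p)) = ∏ p ∈ S.filter (fun p => p ≤ y), p := by
    unfold sm
    rw [Nat.primeFactors_prod hS]
  have h2 : (0 : ℝ) < ((∏ p ∈ S.filter (fun p => p ≤ y), p : ℕ) : ℝ) := by
    have : 0 < ∏ p ∈ S.filter (fun p => p ≤ y), p :=
      Finset.prod_pos (fun p hp => (hS p (Finset.mem_filter.mp hp).1).pos)
    exact_mod_cast this
  have h3 : Real.log ((∏ p ∈ S.filter (fun p => p ≤ y), p : ℕ) : ℝ) = LL (lg y) S := by
    unfold LL lg
    rw [Nat.cast_prod, Real.log_prod, Finset.sum_filter]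
    intro p hp
    have := (hS p (Finset.mem_filter.mp hp).1).pos
    positivity
  rw [h1, ← h3]
  exact (Real.lt_log_iff_exp_lt h2).symm

theorem prod_ (h1 : S_MERT) : S_PROD := by
  classical
  obtain ⟨C, hC0, hC⟩ := h1
  intro ε c hε hc
  have hκ0 : 0 < Real.exp (-(8 * (c + C))) / 2 := by positivity
  have hκ1 : Real.exp (-(8 * (c + C))) / 2 ≤ 1 / 2 := by
    have : Real.exp (-(8 * (c + C))) ≤ 1 := Real.exp_le_one_iff.mpr (by linarith)
    linarith
  obtain ⟨J, hJ⟩ := exists_pow_lt_of_lt_one (show 0 < ε / 2 by linarith)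
    (show 1 - Real.exp (-(8 * (c + C))) / 2 < 1 by linarith)
  have hq : 0 ≤ 4 * (J : ℝ) * (c + C) / ε := by positivity
  refine ⟨J, 8 * C + 1 + 4 * J * (c + C) / ε, by linarith, fun g hg0 hg => ?_⟩
  have hR : 8 * C + 1 ≤ 8 * C + 1 + 4 * J * (c + C) / ε := by linarith
  have hmain := claim hC hC0 hc hR g hg0 hg J ⌊Real.exp (c * g J)⌋₊
  have hRpos : (0 : ℝ) < 8 * C + 1 + 4 * J * (c + C) / ε := by linarith
  have hgR : ∀ j, 8 * C + 1 + 4 * J * (c + C) / ε ≤ g j := by
    intro j
    induction j with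
    | zero => exact hg0
    | succ j ih =>
      refine le_trans ?_ (hg j)
      nlinarith
  have hgmono : Monotone g := monotone_nat_of_le_succ (fun j => by
    refine le_trans ?_ (hg j)
    have := hgR j
    nlinarith)
  have hmain2 := hmain (fun i hi => by
    refine Nat.floor_mono (Real.exp_le_exp.mpr ?_)
    exact mul_le_mul_of_nonneg_left (hgmono hi.le) (by linarith))
  rw [ms_eq]
  refine le_trans (le_of_eq ?_) (hmain2.trans ?_)
  · refine e_congr _ (fun S hS => ?_)
    have hSp : ∀ p ∈ S, p.Prime := fun p hp => (mem_PP.mp (hS hp)).1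
    have hiff : (∀ j < J, Real.exp (g j) < (sm ⌊Real.exp (c * g j)⌋₊ (∏ p ∈ S, p) : ℝ)) ↔
        ∀ i < J, g i < LL (lg ⌊Real.exp (c * g i)⌋₊) S := by
      simp only [log_sm _ hSp]
    by_cases hb : ∀ i < J, g i < LL (lg ⌊Real.exp (c * g i)⌋₊) S
    · rw [if_pos (hiff.mpr hb), if_pos hb]
    · rw [if_neg (fun h => hb (hiff.mp h)), if_neg hb]
  have h5 : (J : ℝ) * (2 * (c + C) / (8 * C + 1 + 4 * J * (c + C) / ε)) ≤ ε / 2 := by
    rw [← mul_div_assoc, div_le_iff₀ hRpos]
    have h6 : ε / 2 * (8 * C + 1 + 4 * J * (c + C) / ε) = ε / 2 * (8 * C + 1) +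
      2 * J * (c + C) := by
      field_simp
      ring
    rw [h6]
    have : 0 ≤ ε / 2 * (8 * C + 1) := by positivity
    linarith
  linarith

end Pool.Agent.W451.HB
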